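import Pool.Agent.Helper45.NW.Comb
import Pool.Agent.Helper77.NW.STL
import Pool.Agent.Helper7.NW.TTW

/-!
# Project NW, packet CRX
-/

set_option autoImplicit false

namespace Pool.Agent.Helper45.NW

open Pool.Agent.Helper52.Wq2 Pool.Agent.Helper61.NW
open Pool.Agent.Helper77.NW (pos pos_mul_zpow adj_mul line_zpow edge exists_pos h_inv)

universe u

variable {Γ : Type u} [Group Γ] {S : Set Γ} {h : Γ → ℤ} {s : Γ} {H n m : ℕ}

/-- a crossing between two lines -/
def Cr (S : Set Γ) (h : Γ → ℤ) (s : Γ) (H : ℕ) (A B : Γ ⧸ Subgroup.zpowers s) : Prop :=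
  ∃ a b : Γ, (a : Γ ⧸ Subgroup.zpowers s) = A ∧ (b : Γ ⧸ Subgroup.zpowers s) = B ∧
    h b = h a + H ∧ a⁻¹ * b ∈ S ∧ (a * s)⁻¹ * (b * s⁻¹) ∈ S

theorem line_s (g : Γ) : ((g * s : Γ) : Γ ⧸ Subgroup.zpowers s) = (g : Γ ⧸ Subgroup.zpowers s) := by
  have := line_zpow (s := s) g 1
  rwa [zpow_one] at this

theorem line_si (g : Γ) :
    ((g * s⁻¹ : Γ) : Γ ⧸ Subgroup.zpowers s) = (g : Γ ⧸ Subgroup.zpowers s) := by
  have := line_zpow (s := s) g (-1)
  rwa [zpow_neg_one] at this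

theorem cr_symm (T : Two S h s H n m) {A B : Γ ⧸ Subgroup.zpowers s} (hc : Cr S h s H A B) :
    Cr S h s H B A := by
  obtain ⟨a, b, rfl, rfl, h1, h2, h3⟩ := hc
  refine ⟨b * s⁻¹, a * s, line_si b, line_s a, ?_, ?_, ?_⟩
  · rw [T.hom, T.hom, h_inv T, T.Hs, h1]; ring
  · have := T.gen.2.1 _ h3
    rwa [mul_inv_rev, inv_inv] at this
  · have := T.gen.2.1 _ h2
    rw [mul_inv_rev, inv_inv] at this
    rwa [inv_mul_cancel_right, mul_inv_cancel_right]

theorem cr_smul (T : Two S h s H n m) (x : Γ) {A B : Γ ⧸ Subgroup.zpowers s}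
    (hc : Cr S h s H A B) : Cr S h s H (x • A) (x • B) := by
  obtain ⟨a, b, rfl, rfl, h1, h2, h3⟩ := hc
  refine ⟨x * a, x * b, rfl, rfl, ?_, ?_, ?_⟩
  · rw [T.hom, T.hom, h1]; ring
  · have : (x * a)⁻¹ * (x * b) = a⁻¹ * b := by group
    rwa [this]
  · have : (x * a * s)⁻¹ * (x * b * s⁻¹) = (a * s)⁻¹ * (b * s⁻¹) := by group
    rwa [this]

theorem crs_iff (e : (Γ ⧸ Subgroup.zpowers s) ≃ ZMod n) (j : ZMod n) :
    Crs S h s H n e j ↔ Cr S h s H (e.symm j) (e.symm (j + 1)) := by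
  constructor
  · rintro ⟨a, b, ha, hb, h1, h2, h3⟩
    exact ⟨a, b, by rw [← ha, Equiv.symm_apply_apply], by rw [← hb, Equiv.symm_apply_apply],
      h1, h2, h3⟩
  · rintro ⟨a, b, ha, hb, h1, h2, h3⟩
    exact ⟨a, b, by rw [ha, Equiv.apply_symm_apply], by rw [hb, Equiv.apply_symm_apply],
      h1, h2, h3⟩

theorem crs_step (T : Two S h s H n m) (hn : 3 ≤ n) (e : (Γ ⧸ Subgroup.zpowers s) ≃ ZMod n)
    (he : IsCyc S s n e) (j : ZMod n) (hj : Crs S h s H n e j) : Crs S h s H n e (j + 2) := by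
  rw [crs_iff] at hj ⊢
  have h20 : (2 : ZMod n) ≠ 0 := by
    intro h2
    have h3 : ((2 : ℕ) : ZMod n) = 0 := by exact_mod_cast h2
    rw [ZMod.natCast_eq_zero_iff] at h3
    exact absurd (Nat.le_of_dvd (by norm_num) h3) (by omega)
  obtain ⟨a, ha⟩ := QuotientGroup.mk_surjective (e.symm (j + 1))
  obtain ⟨b, hb⟩ := QuotientGroup.mk_surjective (e.symm (j + 2))
  obtain ⟨x, hx⟩ : ∃ x : Γ, x • e.symm (j + 1) = e.symm (j + 2) := by
    refine ⟨b * a⁻¹, ?_⟩
    rw [← ha, ← hb]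
    change ((b * a⁻¹ * a : Γ) : Γ ⧸ Subgroup.zpowers s) = _
    rw [inv_mul_cancel_right]
  have hadj : ∀ u : ZMod n, (e (x • e.symm (u + 1)) = e (x • e.symm u) + 1 ∨
      e (x • e.symm u) = e (x • e.symm (u + 1)) + 1) := by
    intro u
    rw [← he]
    apply Pool.Agent.Helper7.NW.ln_smul
    rw [he, Equiv.apply_symm_apply, Equiv.apply_symm_apply]
    exact Or.inl rfl
  have h1 : e (x • e.symm (j + 1)) = j + 2 := by rw [hx, Equiv.apply_symm_apply]
  have hback : ∀ u w : ZMod n, e (x • e.symm u) = w → x • e.symm u = e.symm w := by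
    intro u w hu
    rw [← hu, Equiv.symm_apply_apply]
  have hcase : e (x • e.symm j) = j + 1 ∨ e (x • e.symm j) = j + 3 := by
    rcases hadj j with h2 | h2
    · left
      rw [h1] at h2
      have : j + 1 + 1 = e (x • e.symm j) + 1 := by rw [← h2]; ring
      exact (add_right_cancel this).symm
    · right
      rw [h2, h1]; ring
  rcases hcase with h2 | h2
  · have hj1 : Cr S h s H (e.symm (j + 1)) (e.symm (j + 2)) := by
      have := cr_smul T x hj
      rwa [hback _ _ h2, hx] at this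
    have h3 : e (x • e.symm (j + 2)) = j + 3 := by
      have h4 := hadj (j + 1)
      rw [add_assoc, one_add_one_eq_two] at h4
      rcases h4 with h4 | h4
      · rw [h4, h1]; ring
      · exfalso
        rw [h1] at h4
        have h5 : e (x • e.symm (j + 2)) = e (x • e.symm j) := by
          rw [h2]
          have : e (x • e.symm (j + 2)) + 1 = j + 1 + 1 := by rw [← h4]; ring
          exact add_right_cancel this
        have h6 := e.symm.injective (MulAction.injective x (e.injective h5))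
        exact h20 (by simpa using h6)
    have := cr_smul T x hj1
    rw [hx, hback _ _ h3] at this
    have e3 : j + 2 + 1 = j + 3 := by ring
    rwa [e3]
  · have := cr_smul T x hj
    rw [hback _ _ h2, hx] at this
    have e3 : j + 2 + 1 = j + 3 := by ring
    rw [e3]
    exact cr_symm T this

/-- **CRX.** -/
theorem crx : CrxStmt.{u} := by
  intro Γ _ S h s H n m T hn e he hj q hq
  obtain ⟨j, hj⟩ := hj
  have hm : (0 : ℤ) < m := by exact_mod_cast T.mpos
  have hcr : ∀ i : ℕ, Crs S h s H n e (j + ((2 * i : ℕ) : ZMod n)) := by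
    intro i
    induction i with
    | zero => simpa using hj
    | succ i ih =>
      have h5 := crs_step T hn e he _ ih
      have e5 : j + ((2 * i : ℕ) : ZMod n) + 2 = j + ((2 * (i + 1) : ℕ) : ZMod n) := by
        push_cast; ring
      rwa [e5] at h5
  choose v hv1 hv2 using fun (i : ℕ) (z : ℤ) => exists_pos T (e.symm (j + (i : ZMod n))) z
  have huniq : ∀ (i : ℕ) (z : ℤ) (g : Γ), (g : Γ ⧸ Subgroup.zpowers s) = e.symm (j + (i : ZMod n)) →
      pos h H g = z → g = v i z := by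
    intro i z g hg hz
    have h5 : ((v i z : Γ) : Γ ⧸ Subgroup.zpowers s) = g := (hv1 i z).trans hg.symm
    obtain ⟨k, hk⟩ := Subgroup.mem_zpowers_iff.1 (QuotientGroup.eq.1 h5)
    have hb : g = v i z * s ^ k := by rw [hk, mul_inv_cancel_left]
    have h6 := pos_mul_zpow T (v i z) k
    rw [← hb, hz, hv2] at h6
    have hk0 : k = 0 := by omega
    rw [hb, hk0, zpow_zero, mul_one]
  refine comb q v (m + 1) (by omega) ?_ ?_ ?_ ?_
  · intro i i' x x' hi hi' hv
    have h5 := hv1 i x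
    rw [hv, hv1 i' x'] at h5
    have h7 : (i' : ZMod n) = i := add_left_cancel (e.symm.injective h5)
    have h8 : i' = i := by
      have := (ZMod.natCast_eq_natCast_iff' i' i n).1 h7
      rwa [Nat.mod_eq_of_lt (by omega), Nat.mod_eq_of_lt (by omega)] at this
    have h9 := hv2 i x
    rw [hv, hv2] at h9
    exact ⟨h8.symm, h9.symm⟩
  · intro i x
    have h5 : v i x * s = v i (x + 1) := huniq _ _ _ (by rw [line_s, hv1]) (by
      have := pos_mul_zpow T (v i x) 1
      rw [zpow_one, hv2] at this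
      exact this)
    rw [← h5]
    exact adj_mul T _ _ T.hs
  · intro k i hi
    have hadj : (Ln S s).Adj (e.symm (j + (i : ZMod n))) (e.symm (j + ((i + 1 : ℕ) : ZMod n))) := by
      rw [he]
      left
      rw [Equiv.apply_symm_apply, Equiv.apply_symm_apply]
      push_cast
      ring
    obtain ⟨a, b, ha, hb, hab, ha', hb'⟩ := edge T _ _ hadj (((m : ℤ) + 1) * k)
    have e1 : ((m : ℤ) + 1) * (k + 1) = ((m : ℤ) + 1) * k + m + 1 := by ring
    refine ⟨pos h H a, pos h H b, ⟨ha'.1, by rw [e1]; omega⟩, ⟨hb'.1, by rw [e1]; omega⟩, ?_⟩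
    rw [← huniq i _ a ha rfl, ← huniq (i + 1) _ b hb rfl]
    exact hab
  · intro k i hi
    obtain ⟨a, b, ha, hb, h5, h6, h7⟩ := hcr i
    have e1 : ((m : ℤ) + 1) * (k + 1) = ((m : ℤ) + 1) * k + m + 1 := by ring
    obtain ⟨Y, hY⟩ : ∃ Y : ℤ, Y = ((m : ℤ) + 1) * k := ⟨_, rfl⟩
    obtain ⟨c, hc⟩ : ∃ c : ℤ, c = -((pos h H a - Y) / m) := ⟨_, rfl⟩
    have g1 := Int.emod_nonneg (pos h H a - Y) hm.ne'
    have g2 := Int.emod_lt_of_pos (pos h H a - Y) hm
    have g3 := Int.emod_add_mul_ediv (pos h H a - Y) m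
    have g4 : (m : ℤ) * c = -((m : ℤ) * ((pos h H a - Y) / m)) := by rw [hc]; ring
    obtain ⟨t, ht⟩ : ∃ t : Γ, t = s ^ ((m : ℤ) * c) := ⟨_, rfl⟩
    have hcen : ∀ g : Γ, g * t = t * g := by
      intro g
      have c1 : Commute g (s ^ m) := T.cen g
      have c2 : Commute g ((s ^ m) ^ c) := c1.zpow_right c
      rw [ht, zpow_mul, zpow_natCast]
      exact c2
    have hpt : ∀ g : Γ, pos h H (g * t) = pos h H g + (m : ℤ) * c := fun g => by
      rw [ht]; exact pos_mul_zpow T g _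
    have hlt : ∀ g : Γ, ((g * t : Γ) : Γ ⧸ Subgroup.zpowers s) = (g : Γ ⧸ Subgroup.zpowers s) :=
      fun g => by rw [ht]; exact line_zpow g _
    have hps : ∀ g : Γ, pos h H (g * s) = pos h H g + 1 := fun g => by
      have := pos_mul_zpow T g 1
      rwa [zpow_one] at this
    have hpsi : ∀ g : Γ, pos h H (g * s⁻¹) = pos h H g + -1 := fun g => by
      have := pos_mul_zpow T g (-1)
      rwa [zpow_neg_one] at this
    have hpb : pos h H b = pos h H a + 1 := by
      have hH := T.Hpos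
      unfold Pool.Agent.Helper77.NW.pos
      rw [h5]
      have := Int.add_mul_ediv_right (h a) 1 (show (H : ℤ) ≠ 0 by omega)
      rwa [one_mul] at this
    have hla : (a : Γ ⧸ Subgroup.zpowers s) = e.symm (j + ((2 * i : ℕ) : ZMod n)) := by
      rw [← ha, Equiv.symm_apply_apply]
    have hlb : (b : Γ ⧸ Subgroup.zpowers s) = e.symm (j + ((2 * i + 1 : ℕ) : ZMod n)) := by
      have e5 : j + ((2 * i + 1 : ℕ) : ZMod n) = j + ((2 * i : ℕ) : ZMod n) + 1 := by
        push_cast; ring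
      rw [e5, ← hb, Equiv.symm_apply_apply]
    obtain ⟨y, hy⟩ : ∃ y : ℤ, y = pos h H a + (m : ℤ) * c := ⟨_, rfl⟩
    refine ⟨y, ?_, ?_, ?_, ?_⟩
    · rw [← hY, hy]; omega
    · rw [e1, ← hY, hy]; omega
    · rw [← huniq (2 * i) y (a * t) (by rw [hlt, hla]) (by rw [hpt, hy]),
        ← huniq (2 * i + 1) (y + 1) (b * t) (by rw [hlt, hlb]) (by rw [hpt, hpb, hy]; ring)]
      rw [cay_adj T.gen]
      have e6 : (a * t)⁻¹ * (b * t) = a⁻¹ * b := by
        rw [mul_inv_rev, mul_assoc, ← mul_assoc a⁻¹ b t, hcen, inv_mul_cancel_left]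
      rwa [e6]
    · rw [← huniq (2 * i + 1) y (b * t * s⁻¹) (by rw [line_si, hlt, hlb])
          (by rw [hpsi, hpt, hpb, hy]; ring),
        ← huniq (2 * i) (y + 1) (a * t * s) (by rw [line_s, hlt, hla]) (by rw [hps, hpt, hy])]
      apply SimpleGraph.Adj.symm
      rw [cay_adj T.gen]
      have e7 : a * t * s = a * s * t := by rw [mul_assoc, ← hcen s, mul_assoc]
      have e8 : b * t * s⁻¹ = b * s⁻¹ * t := by rw [mul_assoc, ← hcen s⁻¹, mul_assoc]
      have e6 : (a * t * s)⁻¹ * (b * t * s⁻¹) = (a * s)⁻¹ * (b * s⁻¹) := by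
        rw [e7, e8, mul_inv_rev (a * s) t, mul_assoc, ← mul_assoc (a * s)⁻¹ (b * s⁻¹) t, hcen,
          inv_mul_cancel_left]
      rwa [e6]

end Pool.Agent.Helper45.NW
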