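import Pool.Agent.Helper61.NW.Goals

/-!
# Project NW, packet CRX, the combinatorial part
-/

set_option autoImplicit false

namespace Pool.Agent.Helper45.NW

open Pool.Agent.Helper52.Wq2 Pool.Agent.Helper61.NW

universe u

variable {V : Type u} {G : SimpleGraph V}

/-- vertical segment -/
def seg (v : ℕ → ℤ → V) (i : ℕ) (x y : ℤ) : Set V := {w | ∃ z, (x ≤ z ∧ z < y) ∧ v i z = w}

theorem conn_seg (v : ℕ → ℤ → V) (h1 : ∀ i x, G.Adj (v i x) (v i (x + 1))) (i : ℕ) (x y : ℤ)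
    (hxy : x < y) : Conn G (seg v i x y) :=
  conn_line (v i) (fun z => x ≤ z ∧ z < y) x ⟨le_rfl, hxy⟩
    (fun z hz hP => ⟨hz, by have := hP.2; omega⟩)
    (fun z hz hP => ⟨by have := hP.1; omega, by have := hP.2; have := hP.1; omega⟩)
    (fun z _ _ => h1 i z)

theorem conn_chain (T : ℤ → Set V) (hc : ∀ k, Conn G (T k))
    (hu : ∀ k, ∃ a ∈ T k, ∃ b ∈ T (k + 1), G.Adj a b) (a : ℤ) (N : ℕ) :
    Conn G {w | ∃ k, (a ≤ k ∧ k < a + N + 1) ∧ w ∈ T k} := by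
  induction N with
  | zero =>
    have e : {w | ∃ k, (a ≤ k ∧ k < a + (0 : ℕ) + 1) ∧ w ∈ T k} = T a := by
      ext w
      constructor
      · rintro ⟨k, ⟨h1, h2⟩, hw⟩
        have : k = a := by push_cast at h2; omega
        exact this ▸ hw
      · intro hw
        exact ⟨a, ⟨le_rfl, by push_cast; omega⟩, hw⟩
    rw [e]
    exact hc a
  | succ N ih =>
    obtain ⟨p, hp, r, hr, hpr⟩ := hu (a + N)
    have e : {w | ∃ k, (a ≤ k ∧ k < a + ((N + 1 : ℕ) : ℤ) + 1) ∧ w ∈ T k} =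
        {w | ∃ k, (a ≤ k ∧ k < a + N + 1) ∧ w ∈ T k} ∪ T (a + N + 1) := by
      ext w
      constructor
      · rintro ⟨k, ⟨h1, h2⟩, hw⟩
        rcases lt_or_ge k (a + N + 1) with h | h
        · exact Or.inl ⟨k, ⟨h1, h⟩, hw⟩
        · right
          have : k = a + N + 1 := by push_cast at h2; omega
          exact this ▸ hw
      · rintro (⟨k, ⟨h1, h2⟩, hw⟩ | hw)
        · exact ⟨k, ⟨h1, by push_cast; omega⟩, hw⟩
        · exact ⟨a + N + 1, ⟨by omega, by push_cast; omega⟩, hw⟩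
    rw [e]
    exact Conn.union ih (hc _) ⟨a + N, ⟨by omega, by omega⟩, hp⟩ hr hpr

/-- stacking windows -/
theorem stack {ι : Type*} (T : ℤ → Option ι → Set V) (hc : ∀ k o, Conn G (T k o))
    (hd : ∀ k k' o o' w, w ∈ T k o → w ∈ T k' o' → k = k' ∧ o = o')
    (hu : ∀ k o, ∃ a ∈ T k o, ∃ b ∈ T (k + 1) o, G.Adj a b) (N : ℕ)
    (hs : ∀ (x : ℤ) (i : ι), ∃ k, ((N + 1 : ℤ) * x ≤ k ∧ k < (N + 1 : ℤ) * (x + 1)) ∧
      ∃ a ∈ T k none, ∃ b ∈ T k (some i), G.Adj a b) : Mn (StarZ ι) G := by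
  have hN : (0 : ℤ) < (N : ℤ) + 1 := by omega
  have hmul : ∀ x : ℤ, ((N : ℤ) + 1) * (x + 1) = ((N : ℤ) + 1) * x + N + 1 := fun x => by ring
  refine ⟨fun v => {w | ∃ k, (((N : ℤ) + 1) * v.1 ≤ k ∧ k < ((N : ℤ) + 1) * (v.1 + 1)) ∧
    w ∈ T k v.2}, ?_, ?_, ?_⟩
  · rintro ⟨x, o⟩
    have := conn_chain (G := G) (fun k => T k o) (fun k => hc k o) (fun k => hu k o)
      (((N : ℤ) + 1) * x) N
    simp only [hmul]
    exact this
  · rintro ⟨x, o⟩ ⟨x', o'⟩ w ⟨k, ⟨h1, h2⟩, hw⟩ ⟨k', ⟨h1', h2'⟩, hw'⟩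
    obtain ⟨rfl, rfl⟩ := hd k k' o o' w hw hw'
    have a1 : ((N : ℤ) + 1) * x < ((N : ℤ) + 1) * (x' + 1) := lt_of_le_of_lt h1 h2'
    have a2 : ((N : ℤ) + 1) * x' < ((N : ℤ) + 1) * (x + 1) := lt_of_le_of_lt h1' h2
    have b1 := lt_of_mul_lt_mul_left a1 hN.le
    have b2 := lt_of_mul_lt_mul_left a2 hN.le
    have : x = x' := by omega
    rw [this]
  · have key : ∀ v w : ℤ × Option ι,
        ((v.2 = w.2 ∧ w.1 = v.1 + 1) ∨ (v.1 = w.1 ∧ v.2 = none)) → v ≠ w →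
        ∃ a, (∃ k, (((N : ℤ) + 1) * v.1 ≤ k ∧ k < ((N : ℤ) + 1) * (v.1 + 1)) ∧ a ∈ T k v.2) ∧
        ∃ b, (∃ k, (((N : ℤ) + 1) * w.1 ≤ k ∧ k < ((N : ℤ) + 1) * (w.1 + 1)) ∧ b ∈ T k w.2) ∧
          G.Adj a b := by
      rintro ⟨x, o⟩ ⟨x', o'⟩ (⟨e1, e2⟩ | ⟨e1, e2⟩) hne
      · simp only at e1 e2
        subst e1 e2
        obtain ⟨a, ha, b, hb, hab⟩ := hu (((N : ℤ) + 1) * x + N) o
        have h1 := hmul x
        have h2 := hmul (x + 1)
        refine ⟨a, ⟨_, ⟨?_, ?_⟩, ha⟩, b, ⟨_, ⟨?_, ?_⟩, hb⟩, hab⟩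
        · simp only; omega
        · simp only; omega
        · simp only; omega
        · simp only; omega
      · simp only at e1 e2
        subst e1 e2
        rcases o' with _ | i
        · exact absurd rfl hne
        · obtain ⟨k, hk, a, ha, b, hb, hab⟩ := hs x i
          exact ⟨a, ⟨k, hk, ha⟩, b, ⟨k, hk, hb⟩, hab⟩
    intro v w hvw
    unfold StarZ at hvw
    rw [SimpleGraph.fromRel_adj] at hvw
    obtain ⟨hne, h1 | h1⟩ := hvw
    · obtain ⟨a, ha, b, hb, hab⟩ := key v w h1 hne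
      exact ⟨a, ha, b, hb, hab⟩
    · obtain ⟨a, ha, b, hb, hab⟩ := key w v h1 hne.symm
      exact ⟨b, hb, a, ha, hab.symm⟩

/-- the line of the strand `o` when the centre is on the line `c` -/
def st {q : ℕ} (c : ℕ) : Option (Fin q) → ℕ
  | none => c
  | some i => if c ≤ 2 * i then 2 * i + 1 else 2 * i

theorem st_none {q : ℕ} (c : ℕ) : st (q := q) c none = c := rfl

theorem st_some {q : ℕ} (c : ℕ) (i : Fin q) :
    st c (some i) = if c ≤ 2 * (i : ℕ) then 2 * (i : ℕ) + 1 else 2 * (i : ℕ) := rfl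

theorem st_inj {q : ℕ} (c : ℕ) (o o' : Option (Fin q)) (h : st c o = st c o') : o = o' := by
  rcases o with _ | i <;> rcases o' with _ | i'
  · rfl
  · rw [st_none, st_some] at h
    split_ifs at h <;> omega
  · rw [st_none, st_some] at h
    split_ifs at h <;> omega
  · rw [st_some, st_some] at h
    have : (i : ℕ) = i' := by split_ifs at h <;> omega
    rw [Fin.ext this]

theorem st_le {q : ℕ} (c : ℕ) (hc : c ≤ 2 * q) (o : Option (Fin q)) : st c o ≤ 2 * q := by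
  rcases o with _ | i
  · exact hc
  · rw [st_some]
    have := i.2
    split_ifs <;> omega

/-- one window -/
theorem window (q : ℕ) (v : ℕ → ℤ → V) (P : ℤ) (hP : 0 < P)
    (hinj : ∀ i i' x x', i ≤ 2 * q → i' ≤ 2 * q → v i x = v i' x' → i = i' ∧ x = x')
    (h1 : ∀ i x, G.Adj (v i x) (v i (x + 1)))
    (h2 : ∀ k : ℤ, ∀ i, i < 2 * q → ∃ x y, (P * k ≤ x ∧ x < P * (k + 1)) ∧
      (P * k ≤ y ∧ y < P * (k + 1)) ∧ G.Adj (v i x) (v (i + 1) y))
    (h3 : ∀ k : ℤ, ∀ j, j < q → ∃ x, P * k ≤ x ∧ x + 1 < P * (k + 1) ∧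
      G.Adj (v (2 * j) x) (v (2 * j + 1) (x + 1)) ∧ G.Adj (v (2 * j + 1) x) (v (2 * j) (x + 1)))
    (k : ℤ) (c c' : ℕ) (hc : c ≤ 2 * q) (hc' : c' ≤ 2 * q) (hcc : c ≤ c' + 1 ∧ c' ≤ c + 1) :
    ∃ T : Option (Fin q) → Set V, (∀ o, Conn G (T o)) ∧
      (∀ o, ∀ w ∈ T o, ∃ i z, i ≤ 2 * q ∧ (P * k ≤ z ∧ z < P * (k + 1)) ∧ v i z = w) ∧
      (∀ o o' w, w ∈ T o → w ∈ T o' → o = o') ∧
      (∀ o, v (st c o) (P * k) ∈ T o) ∧ (∀ o, v (st c' o) (P * (k + 1) - 1) ∈ T o) ∧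
      (∀ i : Fin q, c = 2 * i → c' = 2 * i + 1 → ∃ a ∈ T none, ∃ b ∈ T (some i), G.Adj a b) := by
  have hPk : P * (k + 1) = P * k + P := by ring
  by_cases hsw : ∃ j, j < q ∧ ((c = 2 * j ∧ c' = 2 * j + 1) ∨ (c = 2 * j + 1 ∧ c' = 2 * j))
  · obtain ⟨j, hj, hjc⟩ := hsw
    obtain ⟨x, hx1, hx2, hx3, hx4⟩ := h3 k j hj
    have hadj : ∀ o : Option (Fin q), G.Adj (v (st c o) x) (v (st c' o) (x + 1)) := by
      rintro (_ | i)
      · rw [st_none, st_none]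
        rcases hjc with ⟨e1, e2⟩ | ⟨e1, e2⟩
        · rw [e1, e2]; exact hx3
        · rw [e1, e2]; exact hx4
      · by_cases hij : (i : ℕ) = j
        · rw [st_some, st_some, hij]
          rcases hjc with ⟨e1, e2⟩ | ⟨e1, e2⟩
          · rw [e1, e2, if_pos le_rfl, if_neg (by omega)]; exact hx4
          · rw [e1, e2, if_pos le_rfl, if_neg (by omega)]; exact hx3
        · have : st c (some i) = st c' (some i) := by
            rw [st_some, st_some]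
            split_ifs <;> omega
          rw [this]
          exact h1 _ _
    refine ⟨fun o => seg v (st c o) (P * k) (x + 1) ∪ seg v (st c' o) (x + 1) (P * (k + 1)),
      ?_, ?_, ?_, ?_, ?_, ?_⟩
    · intro o
      exact Conn.union (conn_seg v h1 _ _ _ (by omega)) (conn_seg v h1 _ _ _ hx2)
        ⟨x, ⟨hx1, by omega⟩, rfl⟩ ⟨x + 1, ⟨le_rfl, hx2⟩, rfl⟩ (hadj o)
    · rintro o w (⟨z, ⟨hz1, hz2⟩, rfl⟩ | ⟨z, ⟨hz1, hz2⟩, rfl⟩)
      · exact ⟨_, z, st_le c hc o, ⟨hz1, by omega⟩, rfl⟩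
      · exact ⟨_, z, st_le c' hc' o, ⟨by omega, hz2⟩, rfl⟩
    · rintro o o' w (⟨z, ⟨hz1, hz2⟩, e⟩ | ⟨z, ⟨hz1, hz2⟩, e⟩)
        (⟨z', ⟨hz1', hz2'⟩, e'⟩ | ⟨z', ⟨hz1', hz2'⟩, e'⟩)
      · obtain ⟨h5, h6⟩ := hinj _ _ _ _ (st_le c hc o) (st_le c hc o') (e.trans e'.symm)
        exact st_inj c o o' h5
      · obtain ⟨h5, h6⟩ := hinj _ _ _ _ (st_le c hc o) (st_le c' hc' o') (e.trans e'.symm)
        omega
      · obtain ⟨h5, h6⟩ := hinj _ _ _ _ (st_le c' hc' o) (st_le c hc o') (e.trans e'.symm)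
        omega
      · obtain ⟨h5, h6⟩ := hinj _ _ _ _ (st_le c' hc' o) (st_le c' hc' o') (e.trans e'.symm)
        exact st_inj c' o o' h5
    · intro o
      exact Or.inl ⟨P * k, ⟨le_rfl, by omega⟩, rfl⟩
    · intro o
      exact Or.inr ⟨P * (k + 1) - 1, ⟨by omega, by omega⟩, rfl⟩
    · intro i e1 e2
      refine ⟨v (2 * i) x, Or.inl ⟨x, ⟨hx1, by omega⟩, by rw [st_none, e1]⟩,
        v (2 * i) (x + 1), Or.inr ⟨x + 1, ⟨le_rfl, hx2⟩, ?_⟩, h1 _ _⟩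
      rw [st_some, if_neg (by omega)]
  · have hst : ∀ i : Fin q, st c (some i) = st c' (some i) := by
      intro i
      rw [st_some, st_some]
      have hi := i.2
      have : ¬ ((c = 2 * (i : ℕ) ∧ c' = 2 * (i : ℕ) + 1) ∨
          (c = 2 * (i : ℕ) + 1 ∧ c' = 2 * (i : ℕ))) := fun h => hsw ⟨i, hi, h⟩
      split_ifs <;> omega
    have hfull : ∀ i, Conn G (seg v i (P * k) (P * (k + 1))) := fun i =>
      conn_seg v h1 _ _ _ (by omega)
    have hnone : Conn G (seg v c (P * k) (P * (k + 1)) ∪ seg v c' (P * k) (P * (k + 1))) := by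
      rcases Nat.lt_trichotomy c c' with h | h | h
      · have e : c' = c + 1 := by omega
        obtain ⟨x, y, hx, hy, hxy⟩ := h2 k c (by omega)
        rw [e]
        exact Conn.union (hfull _) (hfull _) ⟨x, hx, rfl⟩ ⟨y, hy, rfl⟩ hxy
      · rw [h, Set.union_self]
        exact hfull _
      · have e : c = c' + 1 := by omega
        obtain ⟨x, y, hx, hy, hxy⟩ := h2 k c' (by omega)
        rw [e]
        exact Conn.union (hfull _) (hfull _) ⟨y, hy, rfl⟩ ⟨x, hx, rfl⟩ hxy.symm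
    obtain ⟨T, hT0, hT1⟩ : ∃ T : Option (Fin q) → Set V,
        T none = seg v c (P * k) (P * (k + 1)) ∪ seg v c' (P * k) (P * (k + 1)) ∧
        ∀ i, T (some i) = seg v (st c (some i)) (P * k) (P * (k + 1)) :=
      ⟨fun o => match o with
        | none => seg v c (P * k) (P * (k + 1)) ∪ seg v c' (P * k) (P * (k + 1))
        | some i => seg v (st c (some i)) (P * k) (P * (k + 1)), rfl, fun i => rfl⟩
    have hdis : ∀ (i : Fin q) w, w ∈ T none → w ∈ T (some i) → False := by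
      intro i w hw hw'
      rw [hT0] at hw
      rw [hT1] at hw'
      obtain ⟨z', ⟨hz1', hz2'⟩, e'⟩ := hw'
      rcases hw with ⟨z, ⟨hz1, hz2⟩, e⟩ | ⟨z, ⟨hz1, hz2⟩, e⟩
      · obtain ⟨h5, h6⟩ := hinj _ _ _ _ hc (st_le c hc (some i)) (e.trans e'.symm)
        exact absurd (st_inj c none (some i) h5) (by simp)
      · rw [hst] at e'
        obtain ⟨h5, h6⟩ := hinj _ _ _ _ hc' (st_le c' hc' (some i)) (e.trans e'.symm)
        exact absurd (st_inj c' none (some i) h5) (by simp)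
    refine ⟨T, ?_, ?_, ?_, ?_, ?_, ?_⟩
    · rintro (_ | i)
      · rw [hT0]; exact hnone
      · rw [hT1]; exact hfull _
    · rintro (_ | i) w hw
      · rw [hT0] at hw
        rcases hw with ⟨z, hz, rfl⟩ | ⟨z, hz, rfl⟩
        · exact ⟨c, z, hc, hz, rfl⟩
        · exact ⟨c', z, hc', hz, rfl⟩
      · rw [hT1] at hw
        obtain ⟨z, hz, rfl⟩ := hw
        exact ⟨_, z, st_le c hc (some i), hz, rfl⟩
    · rintro (_ | i) (_ | i') w hw hw'
      · rfl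
      · exact (hdis i' w hw hw').elim
      · exact (hdis i w hw' hw).elim
      · rw [hT1] at hw hw'
        obtain ⟨z, ⟨hz1, hz2⟩, e⟩ := hw
        obtain ⟨z', ⟨hz1', hz2'⟩, e'⟩ := hw'
        obtain ⟨h5, h6⟩ := hinj _ _ _ _ (st_le c hc (some i)) (st_le c hc (some i'))
          (e.trans e'.symm)
        exact st_inj c _ _ h5
    · rintro (_ | i)
      · rw [hT0]
        exact Or.inl ⟨P * k, ⟨le_rfl, by omega⟩, rfl⟩
      · rw [hT1]
        exact ⟨P * k, ⟨le_rfl, by omega⟩, rfl⟩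
    · rintro (_ | i)
      · rw [hT0]
        exact Or.inr ⟨P * (k + 1) - 1, ⟨by omega, by omega⟩, rfl⟩
      · rw [hT1, hst]
        exact ⟨P * (k + 1) - 1, ⟨by omega, by omega⟩, rfl⟩
    · intro i e1 e2
      exact absurd ⟨(i : ℕ), i.2, Or.inl ⟨e1, e2⟩⟩ hsw

/-- the combinatorial part of CRX -/
theorem comb (q : ℕ) (v : ℕ → ℤ → V) (P : ℤ) (hP : 0 < P)
    (hinj : ∀ i i' x x', i ≤ 2 * q → i' ≤ 2 * q → v i x = v i' x' → i = i' ∧ x = x')
    (h1 : ∀ i x, G.Adj (v i x) (v i (x + 1)))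
    (h2 : ∀ k : ℤ, ∀ i, i < 2 * q → ∃ x y, (P * k ≤ x ∧ x < P * (k + 1)) ∧
      (P * k ≤ y ∧ y < P * (k + 1)) ∧ G.Adj (v i x) (v (i + 1) y))
    (h3 : ∀ k : ℤ, ∀ j, j < q → ∃ x, P * k ≤ x ∧ x + 1 < P * (k + 1) ∧
      G.Adj (v (2 * j) x) (v (2 * j + 1) (x + 1)) ∧ G.Adj (v (2 * j + 1) x) (v (2 * j) (x + 1))) :
    Mn (StarZ (Fin q)) G := by
  -- the zigzag
  obtain ⟨D, hD⟩ : ∃ D : ℤ, D = 4 * q + 2 := ⟨_, rfl⟩
  have hD0 : 0 < D := by omega
  obtain ⟨r, hr⟩ : ∃ r : ℤ → ℤ, r = fun k => k % D := ⟨_, rfl⟩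
  have hr0 : ∀ k, 0 ≤ r k ∧ r k < D := fun k => by
    rw [hr]; exact ⟨Int.emod_nonneg _ hD0.ne', Int.emod_lt_of_pos _ hD0⟩
  have hr1 : ∀ k, r (k + 1) = r k + 1 ∨ (r k = D - 1 ∧ r (k + 1) = 0) := by
    intro k
    have h5 := hr0 k
    have h6 : r (k + 1) = (r k + 1) % D := by
      rw [hr]
      show (k + 1) % D = (k % D + 1) % D
      rw [Int.emod_add_emod]
    rcases lt_or_ge (r k + 1) D with h | h
    · left
      rw [h6, Int.emod_eq_of_lt (by omega) h]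
    · right
      have h7 : r k + 1 = D := by omega
      exact ⟨by omega, by rw [h6, h7, Int.emod_self]⟩
  have hr2 : ∀ x t : ℤ, 0 ≤ t → t < D → r (D * x + t) = t := by
    intro x t ht0 htD
    rw [hr]
    show (D * x + t) % D = t
    rw [Int.mul_add_emod_self_left]
    exact Int.emod_eq_of_lt ht0 htD
  obtain ⟨c, hcdef⟩ : ∃ c : ℤ → ℕ, c = fun k =>
    (if r k ≤ 2 * q then r k else 4 * q + 1 - r k).toNat := ⟨_, rfl⟩
  have hcz : ∀ k, (r k ≤ 2 * q ∧ (c k : ℤ) = r k) ∨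
      (2 * (q : ℤ) < r k ∧ (c k : ℤ) = 4 * q + 1 - r k) := by
    intro k
    have h5 := hr0 k
    rw [hcdef]
    by_cases h : r k ≤ 2 * q
    · left
      simp only [h, if_true]
      exact ⟨trivial, Int.toNat_of_nonneg h5.1⟩
    · right
      simp only [h, if_false]
      exact ⟨by omega, Int.toNat_of_nonneg (by omega)⟩
  have hcle : ∀ k, c k ≤ 2 * q := by
    intro k
    have h5 := hr0 k
    rcases hcz k with h | h <;> omega
  have hcc : ∀ k, c k ≤ c (k + 1) + 1 ∧ c (k + 1) ≤ c k + 1 := by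
    intro k
    have h5 := hr0 k
    rcases hr1 k with h6 | h6 <;> rcases hcz k with h | h <;> rcases hcz (k + 1) with h' | h' <;>
      omega
  have hwin := fun k => window q v P hP hinj h1 h2 h3 k (c k) (c (k + 1)) (hcle k) (hcle (k + 1))
    (hcc k)
  choose T hT1 hT2 hT3 hT4 hT5 hT6 using hwin
  refine stack T hT1 ?_ ?_ (4 * q + 1) ?_
  · intro k k' o o' w hw hw'
    obtain ⟨i, z, hi, hz, e⟩ := hT2 k o w hw
    obtain ⟨i', z', hi', hz', e'⟩ := hT2 k' o' w hw'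
    obtain ⟨-, h5⟩ := hinj _ _ _ _ hi hi' (e.trans e'.symm)
    subst h5
    have a1 : P * k < P * (k' + 1) := lt_of_le_of_lt hz.1 hz'.2
    have a2 : P * k' < P * (k + 1) := lt_of_le_of_lt hz'.1 hz.2
    have b1 := lt_of_mul_lt_mul_left a1 hP.le
    have b2 := lt_of_mul_lt_mul_left a2 hP.le
    have : k = k' := by omega
    subst this
    exact ⟨rfl, hT3 k o o' w hw hw'⟩
  · intro k o
    refine ⟨_, hT5 k o, _, hT4 (k + 1) o, ?_⟩
    have := h1 (st (c (k + 1)) o) (P * (k + 1) - 1)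
    rwa [sub_add_cancel] at this
  · intro x i
    have hi := i.2
    have hDe : (((4 * q + 1 : ℕ) : ℤ) + 1) = D := by rw [hD]; push_cast; ring
    have h5 : r (D * x + 2 * (i : ℕ)) = 2 * (i : ℕ) := hr2 x _ (by omega) (by omega)
    have h6 : r (D * x + 2 * (i : ℕ) + 1) = 2 * (i : ℕ) + 1 := by
      rw [add_assoc]; exact hr2 x _ (by omega) (by omega)
    have h7 : c (D * x + 2 * (i : ℕ)) = 2 * i := by
      rcases hcz (D * x + 2 * (i : ℕ)) with h | h <;> omega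
    have h8 : c (D * x + 2 * (i : ℕ) + 1) = 2 * i + 1 := by
      rcases hcz (D * x + 2 * (i : ℕ) + 1) with h | h <;> omega
    refine ⟨D * x + 2 * (i : ℕ), ⟨?_, ?_⟩, hT6 _ i h7 h8⟩
    · rw [hDe]; omega
    · rw [hDe, mul_add, mul_one]; omega

end Pool.Agent.Helper45.NW
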