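import Pool.Agent.Helper45.NW.Comb
import Pool.Agent.Helper61.NW.Goals2

/-!
# Project NW+, packet LCX
-/

set_option autoImplicit false

namespace Pool.Agent.Helper45.NW

open Pool.Agent.Helper52.Wq2 Pool.Agent.Helper61.NW

/-- the step of two gaps -/
theorem step_abs {n : ℕ} {A : Type*} (e : A ≃ ZMod n) (hn : 3 ≤ n) (Ad : A → A → Prop)
    (hAd : ∀ u v, Ad u v ↔ (e v = e u + 1 ∨ e u = e v + 1)) (R : A → A → Prop)
    (hsymm : ∀ u v, R u v → R v u) (j : ZMod n) (τ : A → A) (hinj : Function.Injective τ)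
    (hτ : ∀ u v, Ad u v → Ad (τ u) (τ v)) (hτR : ∀ u v, R u v → R (τ u) (τ v))
    (hτj : τ (e.symm (j + 1)) = e.symm (j + 2)) (hj : R (e.symm j) (e.symm (j + 1))) :
    R (e.symm (j + 2)) (e.symm (j + 2 + 1)) := by
  have h20 : (2 : ZMod n) ≠ 0 := by
    intro h2
    have h3 : ((2 : ℕ) : ZMod n) = 0 := by exact_mod_cast h2
    rw [ZMod.natCast_eq_zero_iff] at h3
    exact absurd (Nat.le_of_dvd (by norm_num) h3) (by omega)
  have hadj : ∀ u : ZMod n, (e (τ (e.symm (u + 1))) = e (τ (e.symm u)) + 1 ∨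
      e (τ (e.symm u)) = e (τ (e.symm (u + 1))) + 1) := by
    intro u
    rw [← hAd]
    apply hτ
    rw [hAd, Equiv.apply_symm_apply, Equiv.apply_symm_apply]
    exact Or.inl rfl
  have h1 : e (τ (e.symm (j + 1))) = j + 2 := by rw [hτj, Equiv.apply_symm_apply]
  have hback : ∀ u w : ZMod n, e (τ (e.symm u)) = w → τ (e.symm u) = e.symm w := by
    intro u w hu
    rw [← hu, Equiv.symm_apply_apply]
  have e3 : j + 2 + 1 = j + 3 := by ring
  rw [e3]
  have hcase : e (τ (e.symm j)) = j + 1 ∨ e (τ (e.symm j)) = j + 3 := by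
    rcases hadj j with h2 | h2
    · left
      rw [h1] at h2
      have : j + 1 + 1 = e (τ (e.symm j)) + 1 := by rw [← h2]; ring
      exact (add_right_cancel this).symm
    · right
      rw [h2, h1]; ring
  rcases hcase with h2 | h2
  · have hj1 : R (e.symm (j + 1)) (e.symm (j + 2)) := by
      have := hτR _ _ hj
      rwa [hback _ _ h2, hτj] at this
    have h3 : e (τ (e.symm (j + 2))) = j + 3 := by
      have h4 := hadj (j + 1)
      rw [add_assoc, one_add_one_eq_two] at h4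
      rcases h4 with h4 | h4
      · rw [h4, h1]; ring
      · exfalso
        rw [h1] at h4
        have h5 : e (τ (e.symm (j + 2))) = e (τ (e.symm j)) := by
          rw [h2]
          have : e (τ (e.symm (j + 2))) + 1 = j + 1 + 1 := by rw [← h4]; ring
          exact add_right_cancel this
        have h6 := e.symm.injective (hinj (e.injective h5))
        exact h20 (by simpa using h6)
    have := hτR _ _ hj1
    rwa [hτj, hback _ _ h3] at this
  · have := hτR _ _ hj
    rw [hback _ _ h2, hτj] at this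
    exact hsymm _ _ this

variable {n m : ℕ} {G : SimpleGraph (ℤ × Fin n)}

/-- crossing between two lines -/
def Lr (G : SimpleGraph (ℤ × Fin n)) (u v : Fin n) : Prop :=
  ∃ a : ℤ, G.Adj (a, u) (a + 1, v) ∧ G.Adj (a + 1, u) (a, v)

theorem lr_symm (u v : Fin n) (h : Lr G u v) : Lr G v u := by
  obtain ⟨a, h1, h2⟩ := h
  exact ⟨a, h2.symm, h1.symm⟩

theorem lcrs_iff (e : Fin n ≃ ZMod n) (j : ZMod n) :
    LCrs G e j ↔ Lr G (e.symm j) (e.symm (j + 1)) := by
  constructor
  · rintro ⟨a, u, v, hu, hv, h1, h2⟩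
    rw [← hv, ← hu, Equiv.symm_apply_apply, Equiv.symm_apply_apply]
    exact ⟨a, h1, h2⟩
  · rintro ⟨a, h1, h2⟩
    exact ⟨a, _, _, Equiv.apply_symm_apply _ _, Equiv.apply_symm_apply _ _, h1, h2⟩

theorem lr_of (T : Lsys n m G) {u v : Fin n} {a b a' b' : ℤ} (h1 : G.Adj (a, u) (b, v))
    (h2 : G.Adj (a', u) (b', v)) (ha : a < a') (hb : b' < b) : Lr G u v := by
  have n1 := abs_le.1 (T.near _ _ _ _ h1)
  have n2 := abs_le.1 (T.near _ _ _ _ h2)
  have e1 : a' = a + 1 := by omega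
  have e2 : b = a + 1 := by omega
  have e3 : b' = a := by omega
  subst e1 e2 e3
  exact ⟨b', h1, h2⟩

theorem lr_map (T : Lsys n m G) (f : G ≃g G) (τ : Equiv.Perm (Fin n)) (ε : ℤ) (c : Fin n → ℤ)
    (hε : ε = 1 ∨ ε = -1) (hf : ∀ a k, f (a, k) = (ε * a + c k, τ k)) (u v : Fin n)
    (h : Lr G u v) : Lr G (τ u) (τ v) := by
  obtain ⟨a, h1, h2⟩ := h
  have g1 := f.map_rel_iff.2 h1
  have g2 := f.map_rel_iff.2 h2
  rw [hf, hf] at g1 g2
  rcases hε with rfl | rfl
  · exact lr_of T g1 g2 (by omega) (by omega)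
  · exact lr_of T g2 g1 (by omega) (by omega)

theorem lg_adj (u v : Fin n) : (Lg G).Adj u v ↔ u ≠ v ∧ ∃ a b : ℤ, G.Adj (a, u) (b, v) := by
  unfold Lg
  rw [SimpleGraph.fromRel_adj]
  constructor
  · rintro ⟨hne, ⟨a, b, h⟩ | ⟨a, b, h⟩⟩
    · exact ⟨hne, a, b, h⟩
    · exact ⟨hne, b, a, h.symm⟩
  · rintro ⟨hne, a, b, h⟩
    exact ⟨hne, Or.inl ⟨a, b, h⟩⟩

theorem per_z (T : Lsys n m G) (a b : ℤ) (i j : Fin n) (h : G.Adj (a, i) (b, j)) (c : ℤ) :
    G.Adj (a + m * c, i) (b + m * c, j) := by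
  induction c using Int.induction_on with
  | zero => simpa using h
  | succ k ih =>
    have := (T.per _ _ _ _).1 ih
    have e1 : ∀ x : ℤ, x + (m : ℤ) * k + m = x + m * (k + 1) := fun x => by ring
    rwa [e1, e1] at this
  | pred k ih =>
    rw [T.per]
    have e1 : ∀ x : ℤ, x + (m : ℤ) * (-k - 1) + m = x + m * (-k) := fun x => by ring
    rwa [e1, e1]

/-- **LCX.** -/
theorem lcx : LcxStmt := by
  intro n m G T hn e he hj q hq
  obtain ⟨j, hj⟩ := hj
  have hm : (0 : ℤ) < m := by exact_mod_cast T.mpos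
  have hcr : ∀ i : ℕ, Lr G (e.symm (j + ((2 * i : ℕ) : ZMod n)))
      (e.symm (j + ((2 * i : ℕ) : ZMod n) + 1)) := by
    intro i
    induction i with
    | zero => rw [← lcrs_iff]; simpa using hj
    | succ i ih =>
      obtain ⟨f, τ, ε, c, hε, hτ, hf⟩ := T.trans (e.symm (j + ((2 * i : ℕ) : ZMod n) + 1))
        (e.symm (j + ((2 * i : ℕ) : ZMod n) + 2))
      have h5 := step_abs e hn (Lg G).Adj he (Lr G) lr_symm (j + ((2 * i : ℕ) : ZMod n)) τ
        τ.injective (by
          intro u v huv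
          rw [lg_adj] at huv ⊢
          obtain ⟨hne, a, b, hab⟩ := huv
          refine ⟨fun h => hne (τ.injective h), ε * a + c u, ε * b + c v, ?_⟩
          have := f.map_rel_iff.2 hab
          rwa [hf, hf] at this)
        (fun u v => lr_map T f τ ε c hε hf u v) hτ ih
      have e5 : j + ((2 * i : ℕ) : ZMod n) + 2 = j + ((2 * (i + 1) : ℕ) : ZMod n) := by
        push_cast; ring
      rwa [e5] at h5
  have hwin : ∀ (a Y : ℤ), ∃ c : ℤ, Y ≤ a + m * c ∧ a + m * c < Y + m := by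
    intro a Y
    have g1 := Int.emod_nonneg (a - Y) hm.ne'
    have g2 := Int.emod_lt_of_pos (a - Y) hm
    have g3 := Int.emod_add_mul_ediv (a - Y) m
    refine ⟨-((a - Y) / m), ?_, ?_⟩
    · have : (m : ℤ) * -((a - Y) / m) = -((m : ℤ) * ((a - Y) / m)) := by ring
      rw [this]; omega
    · have : (m : ℤ) * -((a - Y) / m) = -((m : ℤ) * ((a - Y) / m)) := by ring
      rw [this]; omega
  have e1 : ∀ k : ℤ, ((m : ℤ) + 1) * (k + 1) = ((m : ℤ) + 1) * k + m + 1 := fun k => by ring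
  refine comb q (fun i z => (z, e.symm (j + ((i : ℕ) : ZMod n)))) (m + 1) (by omega) ?_ ?_ ?_ ?_
  · intro i i' x x' hi hi' hv
    simp only [Prod.mk.injEq] at hv
    have h7 : (i : ZMod n) = i' := add_left_cancel (e.symm.injective hv.2)
    have h8 : i = i' := by
      have := (ZMod.natCast_eq_natCast_iff' i i' n).1 h7
      rwa [Nat.mod_eq_of_lt (by omega), Nat.mod_eq_of_lt (by omega)] at this
    exact ⟨h8, hv.1⟩
  · intro i x
    exact T.step _ _
  · intro k i hi
    have hadj : (Lg G).Adj (e.symm (j + ((i : ℕ) : ZMod n)))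
        (e.symm (j + ((i + 1 : ℕ) : ZMod n))) := by
      rw [he]
      left
      rw [Equiv.apply_symm_apply, Equiv.apply_symm_apply]
      push_cast
      ring
    rw [lg_adj] at hadj
    obtain ⟨-, a, b, hab⟩ := hadj
    have hn' := abs_le.1 (T.near _ _ _ _ hab)
    obtain ⟨c, hc1, hc2⟩ := hwin (min a b) (((m : ℤ) + 1) * k)
    refine ⟨a + m * c, b + m * c, ?_, ?_, per_z T _ _ _ _ hab c⟩
    · rw [e1]
      rcases le_total a b with h | h
      · rw [min_eq_left h] at hc1 hc2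
        constructor <;> omega
      · rw [min_eq_right h] at hc1 hc2
        constructor <;> omega
    · rw [e1]
      rcases le_total a b with h | h
      · rw [min_eq_left h] at hc1 hc2
        constructor <;> omega
      · rw [min_eq_right h] at hc1 hc2
        constructor <;> omega
  · intro k i hi
    obtain ⟨a, h1, h2⟩ := hcr i
    obtain ⟨c, hc1, hc2⟩ := hwin a (((m : ℤ) + 1) * k)
    have e5 : j + ((2 * i + 1 : ℕ) : ZMod n) = j + ((2 * i : ℕ) : ZMod n) + 1 := by
      push_cast; ring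
    have e6 : a + 1 + m * c = a + m * c + 1 := by ring
    have g1 := per_z T _ _ _ _ h1 c
    have g2 := per_z T _ _ _ _ h2 c
    rw [e6] at g1 g2
    refine ⟨a + m * c, hc1, ?_, ?_, ?_⟩
    · rw [e1]; omega
    · show G.Adj (a + m * c, e.symm (j + ((2 * i : ℕ) : ZMod n)))
        (a + m * c + 1, e.symm (j + ((2 * i + 1 : ℕ) : ZMod n)))
      rw [e5]
      exact g1
    · show G.Adj (a + m * c, e.symm (j + ((2 * i + 1 : ℕ) : ZMod n)))
        (a + m * c + 1, e.symm (j + ((2 * i : ℕ) : ZMod n)))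
      rw [e5]
      exact g2.symm

end Pool.Agent.Helper45.NW
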