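import Pool.Agent.Helper61.NW.Goals2

/-!
# Project NW+, packet TEN
-/

set_option autoImplicit false

namespace Pool.Agent.Helper45.NW

open Pool.Agent.Helper52.Wq2 Pool.Agent.Helper61.NW

universe u

/-- **TEN.** -/
theorem ten : TenStmt.{u} := by
  intro Γ _ hΓ ⟨c, hc⟩
  classical
  obtain ⟨Z, hZ⟩ : ∃ Z : Subgroup Γ, Z = (Subgroup.zpowers c).normalCore := ⟨_, rfl⟩
  have hZn : Z.Normal := by rw [hZ]; infer_instance
  have hZf : Z.FiniteIndex := by rw [hZ]; infer_instance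
  have hZle : Z ≤ Subgroup.zpowers c := by rw [hZ]; exact Subgroup.normalCore_le _
  -- a generator
  obtain ⟨z, hz⟩ : ∃ z : Γ, Subgroup.zpowers z = Z := by
    have h1 : IsCyclic (Z.subgroupOf (Subgroup.zpowers c)) := inferInstance
    obtain ⟨g, hg⟩ := h1.exists_generator
    refine ⟨((g : Subgroup.zpowers c) : Γ), le_antisymm ?_ ?_⟩
    · rw [Subgroup.zpowers_le]
      exact g.2
    · intro x hx
      obtain ⟨k, hk⟩ := Subgroup.mem_zpowers_iff.1 (hg ⟨⟨x, hZle hx⟩, hx⟩)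
      refine Subgroup.mem_zpowers_iff.2 ⟨k, ?_⟩
      have := congrArg (fun y : Z.subgroupOf (Subgroup.zpowers c) =>
        ((y : Subgroup.zpowers c) : Γ)) hk
      simpa using this
  have hinj : Function.Injective (fun k : ℤ => z ^ k) := by
    rw [injective_zpow_iff_not_isOfFinOrder, ← infinite_zpowers]
    rw [hz]
    have h1 := Subgroup.card_mul_index Z
    rw [Nat.card_eq_zero_of_infinite (α := Γ)] at h1
    have h2 : Nat.card Z = 0 := by
      rcases Nat.mul_eq_zero.1 h1 with h | h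
      · exact h
      · exact absurd h hZf.index_ne_zero
    by_contra hfin
    have hfin' : Finite Z := not_infinite_iff_finite.1 (by
      intro h; exact hfin (Set.infinite_coe_iff.1 h))
    exact Nat.card_pos.ne' h2
  have hz0 : ∀ k l : ℤ, z ^ k = z ^ l → k = l := fun k l h => hinj h
  have hmem : ∀ x ∈ Z, ∃ k : ℤ, z ^ k = x := fun x hx => by
    rw [← hz] at hx
    exact Subgroup.mem_zpowers_iff.1 hx
  have hzZ : z ∈ Z := by rw [← hz]; exact Subgroup.mem_zpowers z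
  have hj : ∀ g : Γ, ∃ j : ℤ, z ^ j = g * z * g⁻¹ := fun g => hmem _ (hZn.conj_mem z hzZ g)
  choose j hj using hj
  have hconj : ∀ (g : Γ) (k : ℤ), g * z ^ k * g⁻¹ = z ^ (j g * k) := by
    intro g k
    rw [zpow_mul, hj, conj_zpow]
  have hjmul : ∀ a b : Γ, j (a * b) = j a * j b := by
    intro a b
    apply hz0
    rw [hj, ← hconj, hj]
    group
  have hj1 : j 1 = 1 := by
    apply hz0
    rw [hj]
    simp
  let ε : Γ →* ℤˣ :=
    { toFun := fun g => ⟨j g, j g⁻¹, by rw [← hjmul, mul_inv_cancel, hj1],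
        by rw [← hjmul, inv_mul_cancel, hj1]⟩
      map_one' := Units.ext hj1
      map_mul' := fun a b => Units.ext (hjmul a b) }
  have hε : ∀ g, ((ε g : ℤˣ) : ℤ) = j g := fun g => rfl
  obtain ⟨Γ₀, hΓ₀⟩ : ∃ Γ₀ : Subgroup Γ, Γ₀ = ε.ker := ⟨_, rfl⟩
  have hΓ₀m : ∀ g, g ∈ Γ₀ ↔ ε g = 1 := fun g => by rw [hΓ₀, MonoidHom.mem_ker]
  have hΓ₀j : ∀ g, ε g = 1 ↔ j g = 1 := fun g => by
    rw [← hε, Units.ext_iff, Units.val_one]
  have hcen : (Subgroup.center Γ₀).FiniteIndex := by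
    have h1 : (Z.subgroupOf Γ₀).FiniteIndex := inferInstance
    refine Subgroup.finiteIndex_of_le (H := Z.subgroupOf Γ₀) ?_
    intro x hx
    rw [Subgroup.mem_center_iff]
    intro g
    obtain ⟨k, hk⟩ := hmem _ (Subgroup.mem_subgroupOf.1 hx)
    apply Subtype.ext
    show (g : Γ) * (x : Γ) = (x : Γ) * (g : Γ)
    have h2 := hconj (g : Γ) k
    have h3 : j (g : Γ) = 1 := (hΓ₀j _).1 ((hΓ₀m _).1 g.2)
    rw [h3, one_mul, hk] at h2
    exact mul_inv_eq_iff_eq_mul.1 h2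
  obtain ⟨N, hN⟩ : ∃ N : ℕ, N = (Subgroup.center Γ₀).index := ⟨_, rfl⟩
  have hN0 : N ≠ 0 := by rw [hN]; exact hcen.index_ne_zero
  obtain ⟨M, hM⟩ : ∃ M : ℕ, M = N * Z.index := ⟨_, rfl⟩
  have hM0 : M ≠ 0 := by rw [hM]; exact mul_ne_zero hN0 hZf.index_ne_zero
  have hpow : ∀ a b : Γ, a ∈ Γ₀ → b ∈ Γ₀ → (a * b) ^ M = a ^ M * b ^ M := by
    intro a b ha hb
    have h1 := map_mul (MonoidHom.transferCenterPow Γ₀) ⟨a, ha⟩ ⟨b, hb⟩
    have h2 := congrArg (fun y : Subgroup.center Γ₀ => ((y : Γ₀) : Γ)) h1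
    simp only [MonoidHom.transferCenterPow_apply, Subgroup.coe_mul, Subgroup.coe_pow] at h2
    rw [← hN] at h2
    have h3 : Commute (a ^ N) (b ^ N) := by
      have h4 := (MonoidHom.transferCenterPow Γ₀ ⟨a, ha⟩).2
      rw [MonoidHom.transferCenterPow_apply, Subgroup.mem_center_iff] at h4
      have h5 := congrArg (fun y : Γ₀ => (y : Γ)) (h4 ⟨b ^ N, Subgroup.pow_mem _ hb N⟩)
      simp only [Subgroup.coe_mul, Subgroup.coe_pow] at h5
      rw [← hN] at h5
      exact h5.symm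
    rw [hM, pow_mul, h2, h3.mul_pow, ← pow_mul, ← pow_mul]
  have hL : ∀ g : Γ, ∃ l : ℤ, z ^ l = g ^ M := fun g => hmem _ (by
    rw [hM, pow_mul]
    exact Subgroup.pow_index_mem Z _)
  choose L hL using hL
  have hLadd : ∀ a b : Γ, a ∈ Γ₀ → b ∈ Γ₀ → L (a * b) = L a + L b := by
    intro a b ha hb
    apply hz0
    rw [hL, hpow a b ha hb, zpow_add, hL, hL]
  have hLconj : ∀ u b : Γ, L (u * b * u⁻¹) = j u * L b := by
    intro u b
    apply hz0
    rw [hL, conj_pow, ← hL, hconj]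
  have hLz : L z = M := by
    apply hz0
    rw [hL, zpow_natCast]
  have hzΓ : z ∈ Γ₀ := by
    rw [hΓ₀m, hΓ₀j]
    apply hz0
    rw [hj]
    group
  have hLinv : ∀ a ∈ Γ₀, L a⁻¹ = - L a := by
    intro a ha
    apply hz0
    rw [hL, inv_pow, ← hL, zpow_neg]
  have hker : {g | g ∈ Γ₀ ∧ L g = 0}.Finite := by
    have h1 : Set.InjOn (fun g : Γ => (g : Γ ⧸ Z)) {g | g ∈ Γ₀ ∧ L g = 0} := by
      rintro a ⟨ha, ha0⟩ b ⟨hb, hb0⟩ hab
      have h2 : a⁻¹ * b ∈ Z := QuotientGroup.eq.1 hab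
      obtain ⟨k, hk⟩ := hmem _ h2
      have h3 : L (a⁻¹ * b) = 0 := by
        rw [hLadd _ _ (Γ₀.inv_mem ha) hb, hLinv a ha, ha0, hb0]; rfl
      have h4 : z ^ (k * (M : ℤ)) = z ^ (0 : ℤ) := by
        rw [zpow_mul, hk, zpow_natCast, ← hL, h3]
      have h5 := hz0 _ _ h4
      have h6 : k = 0 := by
        rcases mul_eq_zero.1 h5 with h | h
        · exact h
        · exact absurd (by exact_mod_cast h) hM0
      rw [h6, zpow_zero] at hk
      exact inv_mul_eq_one.1 hk.symm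
    exact Set.Finite.of_finite_image (Set.toFinite _) h1
  by_cases hu : ∃ u, ε u = -1
  · right
    obtain ⟨u, hu⟩ := hu
    have hju : j u = -1 := by rw [← hε, hu]; rfl
    have hnot : ∀ g, ε g ≠ 1 → ε g = -1 := fun g hg => (Int.units_eq_one_or (ε g)).resolve_left hg
    have hu1 : ε u ≠ 1 := by rw [hu]; decide
    have hgu : ∀ g, ε g ≠ 1 → g * u⁻¹ ∈ Γ₀ := by
      intro g hg
      rw [hΓ₀m, map_mul, map_inv, hnot g hg, hu]
      decide
    have hLu : L (u * u) = 0 := by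
      have h1 := hLconj u (u * u)
      have h2 : u * (u * u) * u⁻¹ = u * u := by group
      rw [h2, hju] at h1
      omega
    have huu : u * u ∈ Γ₀ := by
      rw [hΓ₀m, map_mul, hu]; decide
    obtain ⟨hh, hh0, hh1⟩ : ∃ hh : Γ → ℤ, (∀ g, ε g = 1 → hh g = L g) ∧
        ∀ g, ε g ≠ 1 → hh g = L (g * u⁻¹) :=
      ⟨fun g => if ε g = 1 then L g else L (g * u⁻¹), fun g hg => if_pos hg,
        fun g hg => if_neg hg⟩
    refine ⟨ε, hh, ⟨u, hu⟩, ?_, ?_, ?_⟩
    · intro a b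
      by_cases ha : ε a = 1 <;> by_cases hb : ε b = 1
      · have hab : ε (a * b) = 1 := by rw [map_mul, ha, hb, one_mul]
        rw [hh0 _ hab, hh0 _ ha, hh0 _ hb, ha, hLadd a b ((hΓ₀m _).2 ha) ((hΓ₀m _).2 hb)]
        simp
      · have hab : ε (a * b) ≠ 1 := by rw [map_mul, ha, one_mul]; exact hb
        rw [hh1 _ hab, hh0 _ ha, hh1 _ hb, ha, mul_assoc,
          hLadd a _ ((hΓ₀m _).2 ha) (hgu b hb)]
        simp
      · have hab : ε (a * b) ≠ 1 := by rw [map_mul, hb, mul_one]; exact ha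
        have e1 : a * b * u⁻¹ = (a * u⁻¹) * (u * b * u⁻¹) := by group
        have h2 : u * b * u⁻¹ ∈ Γ₀ := by
          rw [hΓ₀m, map_mul, map_mul, map_inv, hb, mul_one, mul_inv_cancel]
        rw [hh1 _ hab, hh1 _ ha, hh0 _ hb, hnot a ha, e1, hLadd _ _ (hgu a ha) h2, hLconj, hju]
        simp
      · have hab : ε (a * b) = 1 := by rw [map_mul, hnot a ha, hnot b hb]; decide
        have e1 : a * b = (a * u⁻¹) * ((u * (b * u⁻¹) * u⁻¹) * (u * u)) := by group
        have h2 : u * (b * u⁻¹) * u⁻¹ ∈ Γ₀ := by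
          have := (hΓ₀m _).1 (hgu b hb)
          rw [hΓ₀m, map_mul, map_mul, map_inv, this, mul_one, mul_inv_cancel]
        rw [hh0 _ hab, hh1 _ ha, hh1 _ hb, hnot a ha, e1,
          hLadd _ _ (hgu a ha) (Γ₀.mul_mem h2 huu), hLadd _ _ h2 huu, hLconj, hju, hLu]
        simp
    · refine hker.subset ?_
      rintro g ⟨hg1, hg2⟩
      exact ⟨(hΓ₀m _).2 hg1, by rw [← hh0 g hg1]; exact hg2⟩
    · refine ⟨z, (hΓ₀m _).1 hzΓ, ?_⟩
      rw [hh0 _ ((hΓ₀m _).1 hzΓ), hLz]
      exact_mod_cast hM0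
  · left
    have hall : ∀ g, g ∈ Γ₀ := by
      intro g
      rw [hΓ₀m]
      by_contra hg
      exact hu ⟨g, (Int.units_eq_one_or (ε g)).resolve_left hg⟩
    have hLa : ∀ a b, L (a * b) = L a + L b := fun a b => hLadd a b (hall a) (hall b)
    have hL1 : L 1 = 0 := by
      have := hLa 1 1
      rw [mul_one] at this
      omega
    let A : AddSubgroup ℤ :=
      { carrier := {l | ∃ g, L g = l}
        add_mem' := by
          rintro _ _ ⟨g, rfl⟩ ⟨g', rfl⟩
          exact ⟨g * g', hLa g g'⟩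
        zero_mem' := ⟨1, hL1⟩
        neg_mem' := by
          rintro _ ⟨g, rfl⟩
          exact ⟨g⁻¹, hLinv g (hall g)⟩ }
    obtain ⟨d, hd⟩ := Int.subgroup_cyclic A
    have hdvd : ∀ g, d ∣ L g := by
      intro g
      have h1 : L g ∈ A := ⟨g, rfl⟩
      rw [hd, AddSubgroup.mem_closure_singleton] at h1
      obtain ⟨n, hn⟩ := h1
      exact ⟨n, by rw [← hn, smul_eq_mul, mul_comm]⟩
    have hd0 : d ≠ 0 := by
      rintro rfl
      have h1 := hdvd z
      rw [zero_dvd_iff, hLz] at h1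
      exact hM0 (by exact_mod_cast h1)
    have hdA : d ∈ A := by
      rw [hd]
      exact AddSubgroup.subset_closure rfl
    refine ⟨{ toFun := fun g => Multiplicative.ofAdd (L g / d)
              map_one' := by rw [hL1, Int.zero_ediv]; rfl
              map_mul' := fun a b => by
                rw [hLa, Int.add_ediv_of_dvd_left (hdvd a), ofAdd_add] }, ?_, ?_⟩
    · intro k
      obtain ⟨g, hg⟩ := A.zsmul_mem hdA (Multiplicative.toAdd k)
      refine ⟨g, ?_⟩
      show Multiplicative.ofAdd (L g / d) = k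
      rw [hg, smul_eq_mul, Int.mul_ediv_cancel _ hd0, ofAdd_toAdd]
    · refine hker.subset ?_
      intro g hg
      refine ⟨hall g, ?_⟩
      have h1 : Multiplicative.ofAdd (L g / d) = 1 := hg
      have h2 : L g / d = 0 := by
        have := congrArg Multiplicative.toAdd h1
        simpa using this
      obtain ⟨q, hq⟩ := hdvd g
      rw [hq, Int.mul_ediv_cancel_left _ hd0] at h2
      rw [hq, h2, mul_zero]

end Pool.Agent.Helper45.NW
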